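import Mathlib

namespace Pool.Agent.Results.MP_1fa864_co.Yes

open Finset

variable {V : Type} [Fintype V] [DecidableEq V]

/-- Signed dominating functions. -/
def IsSDF (G : SimpleGraph V) [DecidableRel G.Adj] (f : V → ℤ) : Prop :=
  (∀ v, f v = 1 ∨ f v = -1) ∧ ∀ v, 1 ≤ ∑ u ∈ insert v (G.neighborFinset v), f u

/-- Minimal signed dominating functions. -/
def IsMinSDF (G : SimpleGraph V) [DecidableRel G.Adj] (f : V → ℤ) : Prop :=
  IsSDF G f ∧ ¬ ∃ g, IsSDF G g ∧ g ≠ f ∧ ∀ v, g v ≤ f v

/-- The signed domination number. -/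
noncomputable def lower (G : SimpleGraph V) [DecidableRel G.Adj] : ℤ :=
  sInf {w | ∃ f, IsSDF G f ∧ w = ∑ v, f v}

/-- The upper signed domination number. -/
noncomputable def upper (G : SimpleGraph V) [DecidableRel G.Adj] : ℤ :=
  sSup {w | ∃ f, IsMinSDF G f ∧ w = ∑ v, f v}

abbrev St := Bool × Bool × Bool

def sg (b : Bool) : ℤ := if b then 1 else -1

def pot : St → St → ℤ
  | (true, true, false), (a, b, c) => if a ∧ b ∧ c then -2 else -4
  | (true, true, true), (a, b, _) => if a then (if b then -2 else -10) else (if b then -1 else -4)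
  | (true, false, false), (_, b, c) => if b then (if c then 1 else -5) else (if c then -7 else -13)
  | (true, false, true), (a, b, _) => if a then (if b then -5 else -19) else (if b then 1 else -13)
  | (false, true, _), (_, b, _) => if b then -8 else -10
  | (false, false, false), (a, b, _) => if a ∧ b then -6 else -14
  | (false, false, true), (a, b, _) => if a then (if b then -6 else -20) else -14

theorem cnt {β : Type} (A : Finset β) (s : β → St) (φ : St → ℤ) :
    ∑ c ∈ A, φ (s c) = ∑ q, ((A.filter fun c => s c = q).card : ℤ) * φ q := by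
  rw [← sum_fiberwise_of_maps_to (s := A) (t := univ) (g := s) fun _ _ => mem_univ _]
  refine sum_congr rfl fun q _ => ?_
  rw [sum_congr rfl fun c hc => by rw [(mem_filter.1 hc).2], sum_const, nsmul_eq_mul]

theorem loc {β : Type} (A : Finset β) (s : β → St) (x : St) (p : Option St)
    (h1 : 1 ≤ sg x.1 + (p.elim 0 fun y => sg y.1) + ∑ c ∈ A, sg (s c).1)
    (h2 : 1 ≤ sg x.2.1 + (p.elim 0 fun y => sg y.2.1) + ∑ c ∈ A, sg (s c).2.1)
    (h3 : x.2.2 = true → sg x.1 + (p.elim 0 fun y => sg y.1) + ∑ c ∈ A, sg (s c).1 ≤ 2)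
    (h4 : x.1 = true → x.2.2 = true ∨ (∃ y, p = some y ∧ y.2.2 = true) ∨
      1 ≤ ∑ c ∈ A, if (s c).2.2 then (1 : ℤ) else 0) :
    7 * (sg x.1 - sg x.2.1) - 4 + 2 * ∑ c ∈ A, pot (s c) x ≤ 2 * p.elim 0 (pot x) := by
  rw [cnt A s fun q => sg q.1] at h1 h3
  rw [cnt A s fun q => sg q.2.1] at h2
  rw [cnt A s fun q => if q.2.2 then 1 else 0] at h4
  rw [cnt A s fun q => pot q x]
  simp only [Fintype.sum_prod_type, Fintype.sum_bool] at h1 h2 h3 h4 ⊢
  generalize (A.filter fun c => s c = (true, true, true)).card = n1 at *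
  generalize (A.filter fun c => s c = (true, true, false)).card = n2 at *
  generalize (A.filter fun c => s c = (true, false, true)).card = n3 at *
  generalize (A.filter fun c => s c = (true, false, false)).card = n4 at *
  generalize (A.filter fun c => s c = (false, true, true)).card = n5 at *
  generalize (A.filter fun c => s c = (false, true, false)).card = n6 at *
  generalize (A.filter fun c => s c = (false, false, true)).card = n7 at *
  generalize (A.filter fun c => s c = (false, false, false)).card = n8 at *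
  obtain ⟨a, b, c⟩ := x
  rcases p with _ | ⟨d, e, g⟩
  · cases a <;> cases b <;> cases c <;> simp [sg, pot] at h1 h2 h3 h4 ⊢ <;> omega
  · cases a <;> cases b <;> cases c <;> cases d <;> cases e <;> cases g <;>
      simp [sg, pot] at h1 h2 h3 h4 ⊢ <;> omega

theorem main (G : SimpleGraph V) [DecidableRel G.Adj] (hG : G.IsTree) (f g : V → ℤ)
    (hf : IsMinSDF G f) (hg : IsSDF G g) :
    7 * (∑ v, f v - ∑ v, g v) ≤ 4 * Fintype.card V := by
  obtain ⟨r⟩ := hG.connected.nonempty
  choose P hP _ using fun v => hG.existsUnique_path r v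
  let s : V → St := fun v => (decide (f v = 1), decide (g v = 1),
    decide (∑ u ∈ insert v (G.neighborFinset v), f u ≤ 2))
  have ef : ∀ v, sg (s v).1 = f v := fun v => by rcases hf.1.1 v with h | h <;> simp [s, sg, h]
  have eg : ∀ v, sg (s v).2.1 = g v := fun v => by rcases hg.1 v with h | h <;> simp [s, sg, h]
  have cov : ∀ v, f v = 1 → ∃ u ∈ insert v (G.neighborFinset v), (s u).2.2 = true := by
    intro v hv
    by_contra h
    push Not at h
    refine hf.2 ⟨Function.update f v (-1), ⟨fun u => ?_, fun u => ?_⟩, fun e => ?_, fun u => ?_⟩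
    · by_cases e : u = v
      · simp [e]
      · simpa [e] using hf.1.1 u
    · by_cases e : v ∈ insert u (G.neighborFinset u)
      · have h1 := h u (by simpa [G.adj_comm, eq_comm] using e)
        simp only [s, ne_eq, decide_eq_true_eq, not_le] at h1
        rw [sum_update_of_mem e]
        rw [← add_sum_erase _ f e, hv, ← sdiff_singleton_eq_erase] at h1
        omega
      · rw [sum_update_of_notMem e]; exact hf.1.2 u
    · have := congrFun e v; simp [hv] at this
    · by_cases e : u = v
      · simp [e, hv]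
      · simp [e]
  let B : V → Finset V := fun v => (G.neighborFinset v).filter fun u => u ∈ (P v).support
  let A : V → Finset V := fun v => (G.neighborFinset v).filter fun u => ¬ u ∈ (P v).support
  have tele : ∑ v, ∑ c ∈ A v, pot (s c) (s v) = ∑ c, ∑ v ∈ B c, pot (s c) (s v) := by
    refine sum_comm' fun v c => ?_
    simp only [A, B, mem_filter, mem_univ, true_and, and_true, SimpleGraph.mem_neighborFinset]
    exact ⟨fun ⟨a, b⟩ => ⟨a.symm,
        hG.isAcyclic.mem_support_of_ne_mem_support_of_adj_of_isPath (hP c) (hP v) a.symm b⟩,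
      fun ⟨a, b⟩ => ⟨a.symm,
        hG.isAcyclic.ne_mem_support_of_support_of_adj_of_isPath (hP c) (hP v) a b⟩⟩
  have key : ∀ v, 7 * (f v - g v) - 4 + 2 * ∑ c ∈ A v, pot (s c) (s v) ≤
      2 * ∑ u ∈ B v, pot (s v) (s u) := by
    intro v
    have sp : ∀ φ : V → ℤ, ∑ u ∈ insert v (G.neighborFinset v), φ u =
        φ v + ∑ u ∈ B v, φ u + ∑ u ∈ A v, φ u := by
      intro φ
      rw [sum_insert (by simp), add_assoc, sum_filter_add_sum_filter_not]
    have h1 := hf.1.2 v
    have h2 := hg.2 v
    have h3 : (s v).2.2 = true → ∑ u ∈ insert v (G.neighborFinset v), f u ≤ 2 := by simp [s]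
    have h4 : (s v).1 = true → (s v).2.2 = true ∨ (∃ u ∈ B v, (s u).2.2 = true) ∨
        1 ≤ ∑ c ∈ A v, if (s c).2.2 then (1 : ℤ) else 0 := by
      intro h
      obtain ⟨u, hu, e⟩ := cov v (by simpa [s] using h)
      rcases mem_insert.1 hu with rfl | hu
      · exact Or.inl e
      by_cases e' : u ∈ (P v).support
      · exact Or.inr (Or.inl ⟨u, mem_filter.2 ⟨hu, e'⟩, e⟩)
      · refine Or.inr (Or.inr (le_trans (by simp [e]) (single_le_sum
          (f := fun c => if (s c).2.2 then (1 : ℤ) else 0) (fun c _ => by split_ifs <;> norm_num)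
          (show u ∈ A v from mem_filter.2 ⟨hu, e'⟩))))
    rw [sp] at h1 h2 h3
    have hB : B v = ∅ ∨ ∃ p, B v = {p} := by
      rcases (B v).eq_empty_or_nonempty with h | ⟨p, hp⟩
      · exact Or.inl h
      · refine Or.inr ⟨p, eq_singleton_iff_unique_mem.2 ⟨hp, fun u hu => ?_⟩⟩
        simp only [B, mem_filter, SimpleGraph.mem_neighborFinset] at hp hu
        rw [hG.isAcyclic.eq_penultimate_of_adj_end (hP v) hu.1 hu.2,
          ← hG.isAcyclic.eq_penultimate_of_adj_end (hP v) hp.1 hp.2]
    rcases hB with h | ⟨p, h⟩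
    · simpa [ef, eg, h] using loc (A v) s (s v) none (by simpa [ef, h] using h1)
        (by simpa [eg, h] using h2) (by simpa [ef, h] using h3) (by simpa [h] using h4)
    · simpa [ef, eg, h] using loc (A v) s (s v) (some (s p)) (by simpa [ef, h] using h1)
        (by simpa [eg, h] using h2) (by simpa [ef, h] using h3) (by simpa [h] using h4)
  have := sum_le_sum fun v (_ : v ∈ univ) => key v
  simp only [sum_add_distrib, sum_sub_distrib, ← mul_sum, tele, sum_const, card_univ,
    nsmul_eq_mul] at this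
  linarith

theorem fin (G : SimpleGraph V) [DecidableRel G.Adj] : {f | IsSDF G f}.Finite :=
  (Set.Finite.pi' fun _ : V => Set.toFinite ({1, -1} : Set ℤ)).subset fun _ hf => hf.1

theorem result (G : SimpleGraph V) [DecidableRel G.Adj] (hG : G.IsTree) :
    ((upper G : ℝ) - lower G) / Fintype.card V ≤ 4 / 7 := by
  have h1 : IsSDF G fun _ => 1 := ⟨fun _ => Or.inl rfl, fun v => by
    simp only [sum_const, nsmul_eq_mul, mul_one]
    exact_mod_cast card_pos.2 (insert_nonempty _ _)⟩
  obtain ⟨m, hm, hmin⟩ := Set.exists_min_image _ (fun f : V → ℤ => ∑ v, f v) (fin G) ⟨_, h1⟩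
  have h2 : IsMinSDF G m := ⟨hm, fun ⟨g, a, b, c⟩ => b (funext fun v =>
    (sum_eq_sum_iff_of_le fun v _ => c v).1 (le_antisymm (sum_le_sum fun v _ => c v) (hmin g a)) v
      (mem_univ v))⟩
  obtain ⟨f, hf, e1⟩ : upper G ∈ {w | ∃ f, IsMinSDF G f ∧ w = ∑ v, f v} :=
    Set.Nonempty.csSup_mem ⟨_, m, h2, rfl⟩ (((fin G).image fun f => ∑ v, f v).subset
      fun _ ⟨f, a, b⟩ => ⟨f, a.1, b.symm⟩)
  obtain ⟨g, hg, e2⟩ : lower G ∈ {w | ∃ f, IsSDF G f ∧ w = ∑ v, f v} :=
    Set.Nonempty.csInf_mem ⟨_, m, hm, rfl⟩ (((fin G).image fun f => ∑ v, f v).subset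
      fun _ ⟨f, a, b⟩ => ⟨f, a, b.symm⟩)
  have := main G hG f g hf hg
  rw [← e1, ← e2] at this
  have hn : (0 : ℝ) < Fintype.card V := by
    have := hG.connected.nonempty
    exact_mod_cast Fintype.card_pos
  rw [div_le_div_iff₀ hn (by norm_num)]
  have : (7 : ℝ) * (upper G - lower G) ≤ 4 * Fintype.card V := by exact_mod_cast this
  linarith

end Pool.Agent.Results.MP_1fa864_co.Yes
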